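import Pool.Agent.K3h83.IN.Stm5

/-!
Project OP of helper83, brick N4, part A: coordinates on the group of order `p`, multiplicities.
-/

set_option autoImplicit false

open scoped BigOperators Classical

noncomputable section

namespace Pool.Agent.K3h58.OP

open Pool.Agent.Helper884 Pool.Agent.K3h83.IN
open Pool.Agent.H254R3.IN (IsIrr mem_Irr)
open IC (Irr)

variable {p : ℕ} [hp : Fact p.Prime] {A : Type} [Group A]

theorem exists_param (P : Subgroup A) (hP : Nat.card P = p) :
    ∃ E : Multiplicative (ZMod p) →* A, Function.Injective E ∧ E.range = P := by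
  have h1 : Nat.card (Multiplicative (ZMod p)) = p := by
    rw [Nat.card_congr Multiplicative.toAdd, Nat.card_zmod]
  let e : Multiplicative (ZMod p) ≃* P := mulEquivOfPrimeCardEq h1 hP
  refine ⟨P.subtype.comp e.toMonoidHom, ?_, ?_⟩
  · exact Subtype.val_injective.comp e.injective
  · ext x
    constructor
    · rintro ⟨y, rfl⟩
      exact (e y).2
    · intro hx
      exact ⟨e.symm ⟨x, hx⟩, by simp⟩

theorem E_pow (E : Multiplicative (ZMod p) →* A) (i j : ZMod p) :
    E (Multiplicative.ofAdd (i * j)) = E (Multiplicative.ofAdd i) ^ j.val := by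
  rw [← map_pow, ← ofAdd_nsmul]
  congr 2
  rw [nsmul_eq_mul, ZMod.natCast_zmod_val, mul_comm]

theorem exists_T (E : Multiplicative (ZMod p) →* A) (hE : Function.Injective E) (P : Subgroup A)
    (hr : E.range = P) (hn : P.Normal) :
    ∃ T : A →* (ZMod p)ˣ, ∀ (n : A) (j : ZMod p), n * E (Multiplicative.ofAdd j) * n⁻¹ =
      E (Multiplicative.ofAdd ((T n : ZMod p) * j)) := by
  have h1 : ∀ n : A, ∃ t : ZMod p, n * E (Multiplicative.ofAdd 1) * n⁻¹ =
      E (Multiplicative.ofAdd t) := by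
    intro n
    have h2 : n * E (Multiplicative.ofAdd 1) * n⁻¹ ∈ P := by
      apply hn.conj_mem
      rw [← hr]
      exact ⟨_, rfl⟩
    rw [← hr] at h2
    obtain ⟨t, ht⟩ := h2
    exact ⟨Multiplicative.toAdd t, ht.symm⟩
  choose τ hτ using h1
  have h2 : ∀ (n : A) (j : ZMod p), n * E (Multiplicative.ofAdd j) * n⁻¹ =
      E (Multiplicative.ofAdd (τ n * j)) := by
    intro n j
    rw [E_pow, ← hτ, conj_pow]
    congr 2
    rw [← E_pow, one_mul]
  have h3 : ∀ a b : ZMod p, E (Multiplicative.ofAdd a) = E (Multiplicative.ofAdd b) → a = b :=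
    fun a b h => by simpa using hE h
  let f : A →* ZMod p :=
    { toFun := τ
      map_one' := by
        apply h3
        rw [← hτ]
        simp
      map_mul' := by
        intro n m
        apply h3
        rw [← hτ, ← h2, ← hτ]
        group }
  refine ⟨f.toHomUnits, fun n j => ?_⟩
  rw [h2]
  rfl

/-- the homomorphism `(j, y) ↦ E(j) y` -/
def cc (E : Multiplicative (ZMod p) →* A) (H : Subgroup A)
    (hc : ∀ j, ∀ y ∈ H, E j * y = y * E j) : Multiplicative (ZMod p) × H →* A where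
  toFun x := E x.1 * x.2
  map_one' := by simp
  map_mul' := by
    intro x y
    simp only [Prod.fst_mul, Prod.snd_mul, map_mul, Subgroup.coe_mul]
    rw [mul_assoc, mul_assoc, ← mul_assoc (E y.1), hc y.1 x.2 x.2.2]
    group

/-- the linear character `j ↦ ψ(k j)` -/
def lam (k : ZMod p) : Multiplicative (ZMod p) →* ℂˣ :=
  (((ZMod.stdAddChar (N := p)).mulShift k).toMonoidHom).toHomUnits

theorem lam_apply (k : ZMod p) (j : Multiplicative (ZMod p)) :
    ((lam k j : ℂˣ) : ℂ) = ZMod.stdAddChar (k * Multiplicative.toAdd j) := by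
  simp [lam]

section nat

variable {G : Type} [Group G] [Fintype G]

variable (E : Multiplicative (ZMod p) →* A) (H : Subgroup A) [Fintype H] (ι : A →* G)
  (φ : H → ℂ)

/-- the coefficient of `φ` on the coset of `E(j)` -/
def aF (χ : G → ℂ) (j : ZMod p) : ℂ :=
  (Nat.card H : ℂ)⁻¹ * ∑ y : H, χ (ι (E (Multiplicative.ofAdd j) * y)) * φ y⁻¹

/-- the same for inverses -/
def bF (χ : G → ℂ) (j : ZMod p) : ℂ :=
  (Nat.card H : ℂ)⁻¹ * ∑ y : H, χ (ι (E (Multiplicative.ofAdd j) * y))⁻¹ * φ y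

theorem nat_coef (hc : ∀ j, ∀ y ∈ H, E j * y = y * E j) {χ : G → ℂ} (hχ : IsIrr χ)
    (hφ : IsIrr φ) (k : ZMod p) : ∃ n : ℕ,
      (n : ℂ) = (p : ℂ)⁻¹ * ∑ j : ZMod p, aF E H ι φ χ j * ZMod.stdAddChar (-(k * j)) ∧
      (n : ℂ) = (p : ℂ)⁻¹ * ∑ j : ZMod p, bF E H ι φ χ j * ZMod.stdAddChar (k * j) := by
  obtain ⟨V, _, _, _, ρ, hρ, rfl⟩ := hχ
  obtain ⟨W, _, _, _, σ, hσ, rfl⟩ := hφ
  obtain ⟨ρ', hρ'⟩ : ∃ ρ' : Representation ℂ (Multiplicative (ZMod p) × H) V,
    ρ' = ρ.comp (ι.comp (cc E H hc)) := ⟨_, rfl⟩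
  obtain ⟨n, hn⟩ := Pool.Agent.Q90.WR.B_nat (G := Multiplicative (ZMod p) × H) ρ'
    (Representation.tprod ((IC.oneRep (lam k)).comp (MonoidHom.fst _ H))
      (σ.comp (MonoidHom.snd (Multiplicative (ZMod p)) H)))
  have e1 : (Representation.tprod ((IC.oneRep (lam k)).comp (MonoidHom.fst _ H))
      (σ.comp (MonoidHom.snd (Multiplicative (ZMod p)) H))).character =
      fun x : Multiplicative (ZMod p) × H =>
        ZMod.stdAddChar (k * Multiplicative.toAdd x.1) * σ.character x.2 := by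
    rw [Representation.char_tensor]
    funext x
    change (IC.oneRep (lam k)).character x.1 * σ.character x.2 = _
    rw [IC.oneRep_char, lam_apply]
  have e2 : ρ'.character =
      fun x : Multiplicative (ZMod p) × H => ρ.character (ι (E x.1 * x.2)) := by
    rw [hρ']
    rfl
  have hcard : (Nat.card (Multiplicative (ZMod p) × H) : ℂ)⁻¹ = (p : ℂ)⁻¹ * (Nat.card H : ℂ)⁻¹ := by
    rw [Nat.card_prod, Nat.card_congr Multiplicative.toAdd, Nat.card_zmod]
    push_cast
    rw [mul_inv]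
  rw [e1, e2] at hn
  refine ⟨n, ?_, ?_⟩
  · rw [← hn]
    unfold IC.B aF
    rw [hcard, Fintype.sum_prod_type, mul_assoc, Finset.mul_sum]
    congr 1
    refine Fintype.sum_equiv Multiplicative.toAdd _ _ fun j => ?_
    rw [mul_assoc, Finset.sum_mul]
    congr 1
    refine Finset.sum_congr rfl fun y _ => ?_
    simp only [Prod.fst_inv, Prod.snd_inv, toAdd_inv, mul_neg, ofAdd_toAdd]
    ring
  · rw [← hn, IC.B_comm]
    unfold IC.B bF
    rw [hcard, Fintype.sum_prod_type, mul_assoc, Finset.mul_sum]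
    congr 1
    refine Fintype.sum_equiv Multiplicative.toAdd _ _ fun j => ?_
    rw [mul_assoc, Finset.sum_mul]
    congr 1
    refine Finset.sum_congr rfl fun y _ => ?_
    have e3 : ι (E (j, y)⁻¹.1 * ((j, y)⁻¹.2 : H)) = (ι (E j * y))⁻¹ := by
      rw [← map_inv]
      congr 1
      simp only [Prod.fst_inv, Prod.snd_inv, map_inv, Subgroup.coe_inv]
      rw [hc j y y.2]
      group
    simp only [e3, ofAdd_toAdd]
    ring

end nat

end Pool.Agent.K3h58.OP
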