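import Pool.Agent.K3h58.OP.A

/-!
Project OP of helper83, brick N4, part B: the sums over the characters.
-/

set_option autoImplicit false

open scoped BigOperators Classical

noncomputable section

namespace Pool.Agent.K3h58.OP

open Pool.Agent.Helper884 Pool.Agent.K3h83.IN
open Pool.Agent.H254R3.IN (IsIrr mem_Irr)
open IC (Irr)
open Pool.Agent.Y63.AWC (cj cj_irr col_orth cj_mul cj_one)

variable {p : ℕ} [hp : Fact p.Prime] {A : Type} [Group A]

theorem exists_exp {h : ℕ} (hh : ¬ p ∣ h) : ∃ m : ℕ, m ≡ 1 [MOD p] ∧ h ∣ m := by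
  have hc : Nat.Coprime p h := (Nat.Prime.coprime_iff_not_dvd hp.out).2 hh
  obtain ⟨m, h1, h2⟩ := Nat.chineseRemainder hc 1 0
  exact ⟨m, h1, (Nat.modEq_zero_iff_dvd).1 h2⟩

theorem E_pow_m (E : Multiplicative (ZMod p) →* A) {m : ℕ} (hm : m ≡ 1 [MOD p])
    (x : Multiplicative (ZMod p)) : E x ^ m = E x := by
  rw [← map_pow]
  congr 1
  have h1 : x ^ p = 1 := by
    have h2 := pow_card_eq_one' (x := x)
    rwa [Nat.card_congr Multiplicative.toAdd, Nat.card_zmod] at h2
  have h3 : orderOf x ∣ p := orderOf_dvd_of_pow_eq_one h1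
  have h4 := (pow_eq_pow_iff_modEq (x := x)).2 (hm.of_dvd h3)
  rwa [pow_one] at h4

theorem pow_m (E : Multiplicative (ZMod p) →* A) (H : Subgroup A) [Finite H]
    (hc : ∀ j, ∀ y ∈ H, E j * y = y * E j) {m : ℕ} (hm : m ≡ 1 [MOD p]) (hm2 : Nat.card H ∣ m)
    (x : Multiplicative (ZMod p)) (y : A) (hy : y ∈ H) : (E x * y) ^ m = E x := by
  have hcom : Commute (E x) y := hc x y hy
  rw [hcom.mul_pow, E_pow_m E hm]
  have h1 : (⟨y, hy⟩ : H) ^ m = 1 := by
    obtain ⟨k, rfl⟩ := hm2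
    rw [pow_mul, pow_card_eq_one', one_pow]
  have h2 : y ^ m = 1 := by
    have := congrArg (Subtype.val) h1
    simpa using this
  rw [h2, mul_one]

theorem conj_count {G : Type} [Group G] (E : Multiplicative (ZMod p) →* A) (P H : Subgroup A)
    [Finite H] (ι : A →* G) (hE : Function.Injective E) (hr : E.range = P) (T : A →* (ZMod p)ˣ)
    (hT : ∀ (n : A) (j : ZMod p), n * E (Multiplicative.ofAdd j) * n⁻¹ =
      E (Multiplicative.ofAdd ((T n : ZMod p) * j)))
    (hc : ∀ j, ∀ y ∈ H, E j * y = y * E j) (hH : ¬ p ∣ Nat.card H)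
    (hi : Function.Injective ι)
    (hnor : ∀ g : G, (∀ x ∈ P, ∃ y ∈ P, g * ι x * g⁻¹ = ι y) → g ∈ ι.range)
    (j j' : ZMod p) (hj : j ≠ 0) (y y' : H) :
    Nat.card {g : G // g * ι (E (Multiplicative.ofAdd j) * y) * g⁻¹ =
      ι (E (Multiplicative.ofAdd j') * y')} =
    Nat.card {n : A // (T n : ZMod p) * j = j' ∧ n * y * n⁻¹ = y'} := by
  have hE' : ∀ a b : ZMod p, E (Multiplicative.ofAdd a) = E (Multiplicative.ofAdd b) → a = b :=
    fun a b h => by simpa using hE h
  symm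
  refine Nat.card_congr (Equiv.ofBijective (fun n => ⟨ι n.1, ?_⟩) ⟨?_, ?_⟩)
  · obtain ⟨n, h1, h2⟩ := n
    simp only
    rw [← map_inv, ← map_mul, ← map_mul, ← h1, ← hT, ← h2]
    congr 1
    group
  · intro n n' h
    apply Subtype.ext
    exact hi (by simpa using congrArg Subtype.val h)
  · rintro ⟨g, hg⟩
    obtain ⟨m, hm1, hm2⟩ := exists_exp (p := p) hH
    have h1 : g * ι (E (Multiplicative.ofAdd j)) * g⁻¹ = ι (E (Multiplicative.ofAdd j')) := by
      have h2 := congrArg (fun z => z ^ m) hg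
      simp only [conj_pow] at h2
      rw [← map_pow, ← map_pow, pow_m E H hc hm1 hm2 _ _ y.2, pow_m E H hc hm1 hm2 _ _ y'.2] at h2
      exact h2
    have h3 : g ∈ ι.range := by
      apply hnor
      intro x hx
      rw [← hr] at hx
      obtain ⟨i, rfl⟩ := hx
      obtain ⟨k, rfl⟩ : ∃ k : ZMod p, i = Multiplicative.ofAdd (j * k) :=
        ⟨j⁻¹ * Multiplicative.toAdd i, by
          rw [← mul_assoc, mul_inv_cancel₀ hj, one_mul, ofAdd_toAdd]⟩
      refine ⟨E (Multiplicative.ofAdd (j' * k)), ?_, ?_⟩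
      · rw [← hr]
        exact ⟨_, rfl⟩
      · rw [E_pow, E_pow, map_pow, map_pow, ← h1, conj_pow]
    obtain ⟨n, rfl⟩ := h3
    have h5 : n * E (Multiplicative.ofAdd j) * n⁻¹ = E (Multiplicative.ofAdd j') := by
      apply hi
      rw [map_mul, map_mul, map_inv, h1]
    have h6 : n * y * n⁻¹ = y' := by
      have h7 : n * (E (Multiplicative.ofAdd j) * y) * n⁻¹ = E (Multiplicative.ofAdd j') * y' := by
        apply hi
        rw [map_mul, map_mul, map_inv, hg]
      have h8 : n * (E (Multiplicative.ofAdd j) * y) * n⁻¹ =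
          (n * E (Multiplicative.ofAdd j) * n⁻¹) * (n * y * n⁻¹) := by group
      rw [h8, h5] at h7
      exact mul_left_cancel h7
    refine ⟨⟨n, ?_, h6⟩, rfl⟩
    apply hE'
    rw [← hT, h5]

theorem fixes_iff (H : Subgroup A) [H.Normal] (φ : H → ℂ) (n : A) :
    fixes H.subtype φ n ↔ cj H n φ = φ := by
  constructor
  · intro h
    funext y
    exact h y (MulAut.conjNormal n y) (by simp [MulAut.conjNormal_apply])
  · intro h l l' hl
    have h1 := congrFun h l
    rw [← h1]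
    unfold cj
    congr 1
    apply Subtype.ext
    rw [MulAut.conjNormal_apply]
    exact hl.symm

section sums

variable {G : Type} [Group G] [Fintype G] [Finite A]

variable (E : Multiplicative (ZMod p) →* A) (P H : Subgroup A) [Fintype H] (ι : A →* G)
  (φ : H → ℂ)

theorem sum_ab [H.Normal] (hE : Function.Injective E) (hr : E.range = P) (T : A →* (ZMod p)ˣ)
    (hT : ∀ (n : A) (j : ZMod p), n * E (Multiplicative.ofAdd j) * n⁻¹ =
      E (Multiplicative.ofAdd ((T n : ZMod p) * j)))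
    (hc : ∀ j, ∀ y ∈ H, E j * y = y * E j) (hH : ¬ p ∣ Nat.card H)
    (hi : Function.Injective ι)
    (hnor : ∀ g : G, (∀ x ∈ P, ∃ y ∈ P, g * ι x * g⁻¹ = ι y) → g ∈ ι.range)
    (hφ : IsIrr φ) (j j' : ZMod p) (hj : j ≠ 0) :
    ∑ χ ∈ Irr G, aF E H ι φ χ j * bF E H ι φ χ j' = (Nat.card H : ℂ)⁻¹ *
      (Nat.card {n : A // fixes H.subtype φ n ∧ (T n : ZMod p) * j = j'} : ℂ) := by
  haveI : Fintype A := Fintype.ofFinite A
  have h1 : ∀ y y' : H, ∑ χ ∈ Irr G, χ (ι (E (Multiplicative.ofAdd j) * y)) *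
      χ (ι (E (Multiplicative.ofAdd j') * y'))⁻¹ =
      ∑ n : A, if (T n : ZMod p) * j = j' ∧ n * y * n⁻¹ = y' then (1 : ℂ) else 0 := by
    intro y y'
    rw [col_orth, conj_count E P H ι hE hr T hT hc hH hi hnor j j' hj y y', Finset.sum_boole,
      Nat.card_eq_fintype_card, Fintype.card_subtype]
  have h2 : ∑ χ ∈ Irr G, aF E H ι φ χ j * bF E H ι φ χ j' =
      (Nat.card H : ℂ)⁻¹ * ((Nat.card H : ℂ)⁻¹ * ∑ y : H, ∑ y' : H, (φ y⁻¹ * φ y') *
        ∑ χ ∈ Irr G, χ (ι (E (Multiplicative.ofAdd j) * y)) *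
          χ (ι (E (Multiplicative.ofAdd j') * y'))⁻¹) := by
    simp only [Finset.mul_sum, aF, bF, Finset.sum_mul]
    rw [Finset.sum_comm]
    refine (Finset.sum_congr rfl fun y' _ => Finset.sum_comm).trans ?_
    rw [Finset.sum_comm]
    refine Finset.sum_congr rfl fun y _ => ?_
    refine Finset.sum_congr rfl fun y' _ => ?_
    refine Finset.sum_congr rfl fun χ _ => ?_
    ring
  rw [h2]
  congr 1
  simp only [h1]
  have h3 : ∑ y : H, ∑ y' : H, (φ y⁻¹ * φ y') *
      (∑ n : A, if (T n : ZMod p) * j = j' ∧ n * y * n⁻¹ = y' then (1 : ℂ) else 0) =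
      ∑ n : A, if (T n : ZMod p) * j = j' then ∑ y : H, φ y⁻¹ * cj H n φ y else 0 := by
    simp only [Finset.mul_sum]
    rw [Finset.sum_congr rfl fun y _ => Finset.sum_comm, Finset.sum_comm]
    refine Finset.sum_congr rfl fun n _ => ?_
    by_cases h : (T n : ZMod p) * j = j'
    · rw [if_pos h]
      refine Finset.sum_congr rfl fun y _ => ?_
      rw [Finset.sum_eq_single (MulAut.conjNormal n y)]
      · rw [if_pos ⟨h, by rw [MulAut.conjNormal_apply]⟩, mul_one]
        rfl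
      · intro y' _ hy'
        rw [if_neg, mul_zero]
        rintro ⟨-, h4⟩
        apply hy'
        apply Subtype.ext
        rw [MulAut.conjNormal_apply, h4]
      · intro h4
        exact absurd (Finset.mem_univ _) h4
    · rw [if_neg h]
      refine Finset.sum_eq_zero fun y _ => Finset.sum_eq_zero fun y' _ => ?_
      rw [if_neg (fun h4 => h h4.1), mul_zero]
  have h7 : (Nat.card {n : A // fixes H.subtype φ n ∧ (T n : ZMod p) * j = j'} : ℂ) =
      ∑ n : A, if fixes H.subtype φ n ∧ (T n : ZMod p) * j = j' then (1 : ℂ) else 0 := by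
    rw [Nat.card_eq_fintype_card, Fintype.card_subtype, Finset.sum_boole]
  rw [h3, Finset.mul_sum, h7]
  refine Finset.sum_congr rfl fun n _ => ?_
  by_cases h : (T n : ZMod p) * j = j'
  · rw [if_pos h]
    have h5 := IC.B_irr (G := H) (cj_irr H n hφ) hφ
    have h6 : (Nat.card H : ℂ)⁻¹ * ∑ y : H, φ y⁻¹ * cj H n φ y = IC.B (cj H n φ) φ := by
      unfold IC.B
      congr 1
      exact Finset.sum_congr rfl fun y _ => mul_comm _ _
    rw [h6, h5]
    simp only [fixes_iff, h, and_true]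
  · rw [if_neg h, mul_zero, if_neg (fun h4 => h h4.2)]

end sums

end Pool.Agent.K3h58.OP
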