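import Pool.Agent.K3h58.OP.B

/-!
Project OP of helper83, brick N4, part C: the Gram matrix.
-/

set_option autoImplicit false

open scoped BigOperators Classical

noncomputable section

namespace Pool.Agent.K3h58.OP

open Pool.Agent.Helper884 Pool.Agent.K3h83.IN
open Pool.Agent.H254R3.IN (IsIrr mem_Irr)
open IC (Irr)
open Pool.Agent.Y63.AWC (cj cj_irr col_orth cj_mul cj_one)

variable {p : ℕ} [hp : Fact p.Prime] {A : Type} [Group A]

/-- the additive character -/
abbrev ps (j : ZMod p) : ℂ := ZMod.stdAddChar j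

theorem psum (t : ZMod p) : ∑ j : ZMod p, ps (t * j) = if t = 0 then (p : ℂ) else 0 := by
  have h := AddChar.sum_mulShift (R := ZMod p) (R' := ℂ) t (ZMod.isPrimitive_stdAddChar p)
  rw [ZMod.card] at h
  have h2 : (if t = 0 then (p : ℂ) else 0) = ((if t = 0 then p else 0 : ℕ) : ℂ) := by
    split_ifs <;> simp
  rw [h2, ← h]
  exact Finset.sum_congr rfl fun j _ => by rw [mul_comm]

theorem psum2 (k l t : ZMod p) (hk : k ≠ 0) (hl : l ≠ 0) (ht : t ≠ 0) :
    ∑ j : ZMod p, (ps (-(k * j)) - 1) * (ps (l * (t * j)) - 1) =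
      (p : ℂ) * ((if l * t = k then 1 else 0) + 1) := by
  have h1 : ∀ j : ZMod p, (ps (-(k * j)) - 1) * (ps (l * (t * j)) - 1) =
      ps ((l * t - k) * j) - ps (-k * j) - ps ((l * t) * j) + 1 := by
    intro j
    have e1 : (l * t - k) * j = -(k * j) + l * (t * j) := by ring
    have e2 : -k * j = -(k * j) := by ring
    have e3 : (l * t) * j = l * (t * j) := by ring
    rw [e1, e2, e3]
    unfold ps
    rw [AddChar.map_add_eq_mul]
    ring
  rw [Finset.sum_congr rfl fun j _ => h1 j, Finset.sum_add_distrib, Finset.sum_sub_distrib,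
    Finset.sum_sub_distrib, psum, psum, psum, if_neg (neg_ne_zero.2 hk),
    if_neg (mul_ne_zero hl ht), Finset.sum_const, Finset.card_univ, ZMod.card, nsmul_eq_mul]
  by_cases h : l * t = k
  · rw [if_pos (sub_eq_zero.2 h), if_pos h]
    ring
  · rw [if_neg (fun h' => h (sub_eq_zero.1 h')), if_neg h]
    ring

section sums

variable {G : Type} [Group G] [Fintype G] [Finite A]

variable (E : Multiplicative (ZMod p) →* A) (P H : Subgroup A) [Fintype H] (ι : A →* G)
  (φ : H → ℂ)

theorem gram [H.Normal] (hE : Function.Injective E) (hr : E.range = P) (T : A →* (ZMod p)ˣ)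
    (hT : ∀ (n : A) (j : ZMod p), n * E (Multiplicative.ofAdd j) * n⁻¹ =
      E (Multiplicative.ofAdd ((T n : ZMod p) * j)))
    (hc : ∀ j, ∀ y ∈ H, E j * y = y * E j) (hH : ¬ p ∣ Nat.card H)
    (hi : Function.Injective ι)
    (hnor : ∀ g : G, (∀ x ∈ P, ∃ y ∈ P, g * ι x * g⁻¹ = ι y) → g ∈ ι.range)
    (hφ : IsIrr φ) (k l : ZMod p) (hk : k ≠ 0) (hl : l ≠ 0) :
    ∑ χ ∈ Irr G, ((p : ℂ)⁻¹ * ∑ j : ZMod p, aF E H ι φ χ j * (ps (-(k * j)) - 1)) *
      ((p : ℂ)⁻¹ * ∑ j : ZMod p, bF E H ι φ χ j * (ps (l * j) - 1)) =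
    ((p : ℂ) * (Nat.card H : ℂ))⁻¹ * ((Nat.card {n : A // fixes H.subtype φ n} : ℂ) +
      (Nat.card {n : A // fixes H.subtype φ n ∧ l * (T n : ZMod p) = k} : ℂ)) := by
  have _ : Fintype A := Fintype.ofFinite A
  have hp0 : (p : ℂ) ≠ 0 := by exact_mod_cast hp.out.ne_zero
  have h1 : ∑ χ ∈ Irr G, ((p : ℂ)⁻¹ * ∑ j : ZMod p, aF E H ι φ χ j * (ps (-(k * j)) - 1)) *
      ((p : ℂ)⁻¹ * ∑ j : ZMod p, bF E H ι φ χ j * (ps (l * j) - 1)) =
      (p : ℂ)⁻¹ * ((p : ℂ)⁻¹ * ∑ j : ZMod p, ∑ j' : ZMod p, (ps (-(k * j)) - 1) *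
        (ps (l * j') - 1) * ∑ χ ∈ Irr G, aF E H ι φ χ j * bF E H ι φ χ j') := by
    simp only [Finset.mul_sum, Finset.sum_mul]
    rw [Finset.sum_comm]
    refine (Finset.sum_congr rfl fun y' _ => Finset.sum_comm).trans ?_
    rw [Finset.sum_comm]
    refine Finset.sum_congr rfl fun j _ => ?_
    refine Finset.sum_congr rfl fun j' _ => ?_
    refine Finset.sum_congr rfl fun χ _ => ?_
    ring
  have h2 : ∀ j : ZMod p, ∑ j' : ZMod p, (ps (-(k * j)) - 1) *
        (ps (l * j') - 1) * ∑ χ ∈ Irr G, aF E H ι φ χ j * bF E H ι φ χ j' =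
      (Nat.card H : ℂ)⁻¹ * ∑ n : A, if fixes H.subtype φ n then
        (ps (-(k * j)) - 1) * (ps (l * ((T n : ZMod p) * j)) - 1) else 0 := by
    intro j
    by_cases hj : j = 0
    · subst hj
      have h3 : ps (-(k * (0 : ZMod p))) - 1 = (0 : ℂ) := by simp [ps]
      rw [h3]
      simp only [zero_mul, Finset.sum_const_zero, ite_self, mul_zero]
    · have h4 : ∀ j' : ZMod p, (ps (-(k * j)) - 1) *
          (ps (l * j') - 1) * ∑ χ ∈ Irr G, aF E H ι φ χ j * bF E H ι φ χ j' =
          ∑ n : A, (Nat.card H : ℂ)⁻¹ * if fixes H.subtype φ n ∧ (T n : ZMod p) * j = j' then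
            (ps (-(k * j)) - 1) * (ps (l * j') - 1) else 0 := by
        intro j'
        have h7 : (Nat.card {n : A // fixes H.subtype φ n ∧ (T n : ZMod p) * j = j'} : ℂ) =
            ∑ n : A, if fixes H.subtype φ n ∧ (T n : ZMod p) * j = j' then (1 : ℂ) else 0 := by
          rw [Nat.card_eq_fintype_card, Fintype.card_subtype, Finset.sum_boole]
        rw [sum_ab E P H ι φ hE hr T hT hc hH hi hnor hφ j j' hj, h7, Finset.mul_sum,
          Finset.mul_sum]
        refine Finset.sum_congr rfl fun n _ => ?_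
        split_ifs
        · ring
        · ring
      rw [Finset.sum_congr rfl fun j' _ => h4 j', Finset.sum_comm, Finset.mul_sum]
      refine Finset.sum_congr rfl fun n _ => ?_
      rw [← Finset.mul_sum]
      congr 1
      by_cases hn : fixes H.subtype φ n
      · rw [if_pos hn, Finset.sum_eq_single ((T n : ZMod p) * j)]
        · rw [if_pos ⟨hn, rfl⟩]
        · intro j' _ h5
          rw [if_neg (fun h6 => h5 h6.2.symm)]
        · intro h5
          exact absurd (Finset.mem_univ _) h5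
      · rw [if_neg hn]
        exact Finset.sum_eq_zero fun j' _ => if_neg fun h6 => hn h6.1
  have h8 : (Nat.card {n : A // fixes H.subtype φ n} : ℂ) =
      ∑ n : A, if fixes H.subtype φ n then (1 : ℂ) else 0 := by
    rw [Nat.card_eq_fintype_card, Fintype.card_subtype, Finset.sum_boole]
  have h9 : (Nat.card {n : A // fixes H.subtype φ n ∧ l * (T n : ZMod p) = k} : ℂ) =
      ∑ n : A, if fixes H.subtype φ n ∧ l * (T n : ZMod p) = k then (1 : ℂ) else 0 := by
    rw [Nat.card_eq_fintype_card, Fintype.card_subtype, Finset.sum_boole]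
  rw [h1, Finset.sum_congr rfl fun j _ => h2 j, ← Finset.mul_sum, Finset.sum_comm, h8, h9,
    ← Finset.sum_add_distrib]
  have h10 : ∀ n : A, (∑ j : ZMod p, if fixes H.subtype φ n then
        (ps (-(k * j)) - 1) * (ps (l * ((T n : ZMod p) * j)) - 1) else 0) =
      (p : ℂ) * ((if fixes H.subtype φ n then (1 : ℂ) else 0) +
        if fixes H.subtype φ n ∧ l * (T n : ZMod p) = k then (1 : ℂ) else 0) := by
    intro n
    by_cases hn : fixes H.subtype φ n
    · simp only [hn, true_and, if_true]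
      rw [psum2 k l (T n : ZMod p) hk hl (T n).ne_zero]
      ring
    · simp only [hn, if_false, false_and, Finset.sum_const_zero, add_zero, mul_zero]
  rw [Finset.sum_congr rfl fun n _ => h10 n, ← Finset.mul_sum]
  field_simp

end sums

end Pool.Agent.K3h58.OP
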