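import Pool.Agent.K3h58.OP.C

/-!
Project OP of helper83, brick N4, part D: the stabilizer and the assembly.
-/

set_option autoImplicit false

open scoped BigOperators Classical

noncomputable section

namespace Pool.Agent.K3h58.OP

open Pool.Agent.Helper884 Pool.Agent.K3h83.IN
open Pool.Agent.H254R3.IN (IsIrr mem_Irr)
open IC (Irr)
open Pool.Agent.Y63.AWC (cj cj_irr col_orth cj_mul cj_one)

variable {p : ℕ} [hp : Fact p.Prime] {A : Type} [Group A]

/-- the stabilizer -/
def stabS [Finite A] (H : Subgroup A) [H.Normal] (φ : H → ℂ) : Subgroup A where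
  carrier := {n | fixes H.subtype φ n}
  mul_mem' := by
    intro a b ha hb
    have _ : Fintype A := Fintype.ofFinite A
    rw [Set.mem_ofPred_eq, fixes_iff] at *
    rw [cj_mul, ha, hb]
  one_mem' := by
    have _ : Fintype A := Fintype.ofFinite A
    rw [Set.mem_ofPred_eq, fixes_iff, cj_one]
  inv_mem' := by
    intro a ha
    have _ : Fintype A := Fintype.ofFinite A
    rw [Set.mem_ofPred_eq, fixes_iff] at *
    have h := cj_mul H a a⁻¹ φ
    rw [ha, mul_inv_cancel, cj_one] at h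
    exact h.symm

theorem mem_stabS [Finite A] (H : Subgroup A) [H.Normal] (φ : H → ℂ) (n : A) :
    n ∈ stabS H φ ↔ fixes H.subtype φ n := Iff.rfl

theorem grp [Finite A] (E : Multiplicative (ZMod p) →* A) (P H : Subgroup A) [H.Normal]
    (φ : H → ℂ) (hE : Function.Injective E) (hr : E.range = P) (T : A →* (ZMod p)ˣ)
    (hT : ∀ (n : A) (j : ZMod p), n * E (Multiplicative.ofAdd j) * n⁻¹ =
      E (Multiplicative.ofAdd ((T n : ZMod p) * j)))
    (hc : ∀ j, ∀ y ∈ H, E j * y = y * E j) (hH : ¬ p ∣ Nat.card H)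
    (hcen : Subgroup.centralizer (P : Set A) = P ⊔ H) (hφ : IsIrr φ) :
    Nat.card {n : A // fixes H.subtype φ n} =
      Nat.card ((stabS H φ).map T) * (p * Nat.card H) ∧
    ∀ u : (ZMod p)ˣ, Nat.card {n : A // fixes H.subtype φ n ∧ T n = u} =
      if u ∈ (stabS H φ).map T then p * Nat.card H else 0 := by
  have hE' : ∀ a b : ZMod p, E (Multiplicative.ofAdd a) = E (Multiplicative.ofAdd b) → a = b :=
    fun a b h => by simpa using hE h
  have hker : T.ker = P ⊔ H := by
    rw [← hcen]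
    ext n
    rw [MonoidHom.mem_ker, Subgroup.mem_centralizer_iff]
    constructor
    · intro h x hx
      rw [← hr] at hx
      obtain ⟨j, rfl⟩ := hx
      have h1 := hT n (Multiplicative.toAdd j)
      rw [h, Units.val_one, one_mul, ofAdd_toAdd] at h1
      rw [← h1]
      nth_rewrite 1 [← h1]
      group
    · intro h
      apply Units.ext
      apply hE'
      have h1 := hT n 1
      rw [mul_one] at h1
      rw [← h1]
      have h2 := h (E (Multiplicative.ofAdd 1)) (by rw [SetLike.mem_coe, ← hr]; exact ⟨_, rfl⟩)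
      rw [← h2]
      simp
  have _ : Fintype H := Fintype.ofFinite H
  have hcl : ∀ x y : H, φ (y * x * y⁻¹) = φ x := fun x y =>
    (IC.IsIrrChar.isClass (G := H) hφ) x y
  have hle : T.ker ≤ stabS H φ := by
    rw [hker]
    refine sup_le ?_ ?_
    · intro x hx
      rw [← hr] at hx
      obtain ⟨j, rfl⟩ := hx
      intro l l' h
      have h1 := hc j l l.2
      change E j * l * (E j)⁻¹ = l' at h
      rw [h1] at h
      have h2 : (l : A) = l' := by
        rw [← h]
        group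
      rw [Subtype.ext h2]
    · intro x hx l l' h
      have h2 : l' = (⟨x, hx⟩ : H) * l * (⟨x, hx⟩ : H)⁻¹ := Subtype.ext h.symm
      rw [h2, hcl]
  have hcard : Nat.card T.ker = p * Nat.card H := by
    have h1 : T.ker = (cc E H hc).range := by
      rw [hker]
      apply le_antisymm
      · refine sup_le ?_ ?_
        · intro x hx
          rw [← hr] at hx
          obtain ⟨j, rfl⟩ := hx
          exact ⟨(j, 1), by simp [cc]⟩
        · intro x hx
          exact ⟨(1, ⟨x, hx⟩), by simp [cc]⟩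
      · rintro _ ⟨⟨j, y⟩, rfl⟩
        refine Subgroup.mul_mem_sup ?_ y.2
        rw [← hr]
        exact ⟨j, rfl⟩
    have h2 : Function.Injective (cc E H hc) := by
      rw [injective_iff_map_eq_one]
      rintro ⟨j, y⟩ h
      change E j * y = 1 at h
      obtain ⟨m, hm1, hm2⟩ := exists_exp (p := p) hH
      have h3 := pow_m E H hc hm1 hm2 j y y.2
      rw [h, one_pow] at h3
      have h4 : j = 1 := hE (by rw [← h3, map_one])
      rw [h4, map_one, one_mul] at h
      rw [h4, Prod.mk_eq_one]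
      exact ⟨rfl, Subtype.ext h⟩
    rw [h1, ← Nat.card_congr (MonoidHom.ofInjective h2).toEquiv, Nat.card_prod,
      Nat.card_congr Multiplicative.toAdd, Nat.card_zmod]
  constructor
  · have h1 := Subgroup.index_mul_card (T.comp (stabS H φ).subtype).ker
    rw [Subgroup.index_ker] at h1
    have h2 : (T.comp (stabS H φ).subtype).range = (stabS H φ).map T := by
      rw [MonoidHom.range_comp, Subgroup.range_subtype]
    have h3 : Nat.card (T.comp (stabS H φ).subtype).ker = Nat.card T.ker := by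
      refine Nat.card_congr ⟨fun x => ⟨x.1.1, x.2⟩, fun x => ⟨⟨x.1, hle x.2⟩, x.2⟩, ?_, ?_⟩
      · intro x
        rfl
      · intro x
        rfl
    rw [h2, h3, hcard] at h1
    exact h1.symm
  · intro u
    by_cases hu : u ∈ (stabS H φ).map T
    · rw [if_pos hu, ← hcard]
      obtain ⟨n0, hn0, rfl⟩ := hu
      refine Nat.card_congr ⟨fun n => ⟨n0⁻¹ * n.1, ?_⟩, fun c => ⟨n0 * c.1, ?_, ?_⟩, ?_, ?_⟩
      · rw [MonoidHom.mem_ker, map_mul, map_inv, n.2.2, inv_mul_cancel]
      · exact (stabS H φ).mul_mem hn0 (hle c.2)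
      · rw [map_mul, (MonoidHom.mem_ker.1 c.2), mul_one]
      · intro n
        apply Subtype.ext
        simp
      · intro c
        apply Subtype.ext
        simp
    · rw [if_neg hu]
      have : IsEmpty {n : A // fixes H.subtype φ n ∧ T n = u} :=
        ⟨fun n => hu ⟨n.1, n.2.1, n.2.2⟩⟩
      exact Nat.card_of_isEmpty

theorem aF_inv {G : Type} [Group G] (E : Multiplicative (ZMod p) →* A) (H : Subgroup A)
    [H.Normal] [Fintype H] (ι : A →* G) (φ : H → ℂ) (T : A →* (ZMod p)ˣ)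
    (hT : ∀ (n : A) (j : ZMod p), n * E (Multiplicative.ofAdd j) * n⁻¹ =
      E (Multiplicative.ofAdd ((T n : ZMod p) * j))) (χ : G → ℂ)
    (hχ : ∀ g y : G, χ (y * g * y⁻¹) = χ g) (n : A) (hn : fixes H.subtype φ n) (j : ZMod p) :
    aF E H ι φ χ ((T n : ZMod p) * j) = aF E H ι φ χ j := by
  unfold aF
  congr 1
  symm
  refine Fintype.sum_equiv (MulAut.conjNormal n).toEquiv _ _ fun y => ?_
  have h1 : ι (E (Multiplicative.ofAdd ((T n : ZMod p) * j)) *
      ((MulAut.conjNormal n).toEquiv y : H)) =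
      ι n * ι (E (Multiplicative.ofAdd j) * y) * (ι n)⁻¹ := by
    rw [← hT, ← map_inv, ← map_mul, ← map_mul]
    congr 1
    change n * E (Multiplicative.ofAdd j) * n⁻¹ * ((MulAut.conjNormal n y : H) : A) = _
    rw [MulAut.conjNormal_apply]
    group
  have h2 : φ ((MulAut.conjNormal n).toEquiv y)⁻¹ = φ y⁻¹ := by
    have h3 := congrFun ((fixes_iff H φ n).1 hn) y⁻¹
    rw [← h3]
    unfold cj
    rw [map_inv]
    rfl
  rw [h1, h2, hχ]

theorem sum_cosets {Q : Type} [Group Q] [Fintype Q] (U : Subgroup Q) (g : Q → ℤ)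
    (hg : ∀ q : Q, ∀ w ∈ U, g (q * w) = g q) (f : ℕ) (ev : Q ⧸ U ≃ Fin f) :
    ∑ q : Q, g q = (Nat.card U : ℤ) * ∑ i : Fin f, g (Quotient.out (ev.symm i)) := by
  rw [← Finset.sum_fiberwise (s := Finset.univ) (g := fun q : Q => ev (q : Q ⧸ U)), Finset.mul_sum]
  refine Finset.sum_congr rfl fun i _ => ?_
  have h1 : ∀ q ∈ Finset.univ.filter (fun q : Q => ev (q : Q ⧸ U) = i),
      g q = g (Quotient.out (ev.symm i)) := by
    intro q hq
    rw [Finset.mem_filter] at hq
    have h2 : (Quotient.out (ev.symm i) : Q)⁻¹ * q ∈ U := by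
      rw [← QuotientGroup.eq, ← hq.2, Equiv.symm_apply_apply]
      exact Quotient.out_eq _
    have h3 := hg (Quotient.out (ev.symm i)) _ h2
    rw [← h3]
    congr 1
    group
  rw [Finset.sum_congr rfl h1, Finset.sum_const, nsmul_eq_mul]
  congr 2
  rw [← Fintype.card_subtype, ← Nat.card_eq_fintype_card]
  refine Nat.card_congr ⟨fun q => ⟨(Quotient.out (ev.symm i) : Q)⁻¹ * q.1, ?_⟩,
    fun w => ⟨Quotient.out (ev.symm i) * w.1, ?_⟩, ?_, ?_⟩
  · have h5 : ((q.1 : Q) : Q ⧸ U) = ev.symm i := (Equiv.eq_symm_apply ev).2 q.2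
    rw [← QuotientGroup.eq, h5]
    exact Quotient.out_eq _
  · have h4 : ((Quotient.out (ev.symm i) * w.1 : Q) : Q ⧸ U) = ev.symm i := by
      rw [QuotientGroup.mk_mul_of_mem _ w.2]
      exact Quotient.out_eq _
    rw [h4, Equiv.apply_symm_apply]
  · intro q
    apply Subtype.ext
    simp
  · intro w
    apply Subtype.ext
    simp

theorem t_N4 (h1 : N1) : N4 := by
  intro p hp A G _ _ _ _ P H ι hLD hEM φ hφ e f he hef
  have hnP := hLD.nP
  have hnH := hLD.nH
  letI : Fintype H := Fintype.ofFinite H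
  obtain ⟨E, hE, hr⟩ := exists_param P hLD.cP
  obtain ⟨T, hT⟩ := exists_T E hE P hr hnP
  have hc : ∀ j, ∀ y ∈ H, E j * y = y * E j := fun j y hy =>
    hLD.com _ (by rw [← hr]; exact ⟨j, rfl⟩) y hy
  obtain ⟨hg1, hg2⟩ := grp E P H φ hE hr T hT hc hLD.cH hLD.cen hφ
  obtain ⟨U, hU⟩ : ∃ U : Subgroup (ZMod p)ˣ, U = (stabS H φ).map T := ⟨_, rfl⟩
  rw [← hU] at hg1 hg2
  have hp0 : (p : ℂ) ≠ 0 := by exact_mod_cast hp.out.ne_zero
  have hHpos : 0 < Nat.card H := Nat.card_pos
  have hH0 : (Nat.card H : ℂ) ≠ 0 := by exact_mod_cast hHpos.ne'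
  have hUe : Nat.card U = e := by
    have h2 : stb H φ = Nat.card U * (p * Nat.card H) := hg1
    rw [he] at h2
    exact (Nat.eq_of_mul_eq_mul_right (Nat.mul_pos hp.out.pos hHpos) h2).symm
  have hcardU : Nat.card (ZMod p)ˣ = e * f := by
    rw [Nat.card_eq_fintype_card, ZMod.card_units_eq_totient, Nat.totient_prime hp.out, ← hef]
    simp
  have hepos : 0 < e := by
    rw [← hUe]
    exact Nat.card_pos
  have hQ : Nat.card ((ZMod p)ˣ ⧸ U) = f := by
    have h2 := Subgroup.index_mul_card U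
    rw [hUe, hcardU, Subgroup.index, mul_comm] at h2
    exact Nat.eq_of_mul_eq_mul_left hepos h2
  let ev : (ZMod p)ˣ ⧸ U ≃ Fin f := Finite.equivFinOfCardEq hQ
  have hnat : ∀ (χ : G → ℂ) (k : ZMod p), ∃ n : ℕ, IsIrr χ →
      (n : ℂ) = (p : ℂ)⁻¹ * ∑ j : ZMod p, aF E H ι φ χ j * ps (-(k * j)) ∧
      (n : ℂ) = (p : ℂ)⁻¹ * ∑ j : ZMod p, bF E H ι φ χ j * ps (k * j) := by
    intro χ k
    by_cases h : IsIrr χ
    · obtain ⟨n, hn⟩ := nat_coef E H ι φ hc h hφ k
      exact ⟨n, fun _ => hn⟩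
    · exact ⟨0, fun h' => absurd h' h⟩
  choose cN hcN using hnat
  have hdA : ∀ χ, IsIrr χ → ∀ k : ZMod p, ((cN χ k : ℂ) - cN χ 0) =
      (p : ℂ)⁻¹ * ∑ j : ZMod p, aF E H ι φ χ j * (ps (-(k * j)) - 1) := by
    intro χ hχ k
    rw [(hcN χ k hχ).1, (hcN χ 0 hχ).1, ← mul_sub, ← Finset.sum_sub_distrib]
    congr 1
    refine Finset.sum_congr rfl fun j _ => ?_
    have h2 : ps (-((0 : ZMod p) * j)) = 1 := by simp [ps]
    rw [h2]
    ring
  have hdB : ∀ χ, IsIrr χ → ∀ k : ZMod p, ((cN χ k : ℂ) - cN χ 0) =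
      (p : ℂ)⁻¹ * ∑ j : ZMod p, bF E H ι φ χ j * (ps (k * j) - 1) := by
    intro χ hχ k
    rw [(hcN χ k hχ).2, (hcN χ 0 hχ).2, ← mul_sub, ← Finset.sum_sub_distrib]
    congr 1
    refine Finset.sum_congr rfl fun j _ => ?_
    have h2 : ps ((0 : ZMod p) * j) = 1 := by simp [ps]
    rw [h2]
    ring
  refine ⟨fun i χ => (cN χ ((Quotient.out (ev.symm i) : (ZMod p)ˣ) : ZMod p) : ℤ) - cN χ 0,
    ?_, ?_⟩
  · intro i j
    obtain ⟨k, hk⟩ : ∃ k : (ZMod p)ˣ, k = Quotient.out (ev.symm i) := ⟨_, rfl⟩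
    obtain ⟨l, hl⟩ : ∃ l : (ZMod p)ˣ, l = Quotient.out (ev.symm j) := ⟨_, rfl⟩
    beta_reduce
    rw [← hk, ← hl]
    have hcount : Nat.card {n : A // fixes H.subtype φ n ∧ (l : ZMod p) * (T n : ZMod p) = k} =
        if i = j then p * Nat.card H else 0 := by
      have h2 : ∀ n : A, ((l : ZMod p) * (T n : ZMod p) = k) ↔ T n = l⁻¹ * k := by
        intro n
        rw [← Units.val_mul, Units.val_inj, eq_inv_mul_iff_mul_eq]
      simp only [h2]
      rw [hg2]
      have h3 : l⁻¹ * k ∈ U ↔ i = j := by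
        rw [← QuotientGroup.eq, hk, hl]
        have h4 : ∀ q : (ZMod p)ˣ ⧸ U, ((Quotient.out q : (ZMod p)ˣ) : (ZMod p)ˣ ⧸ U) = q :=
          fun q => Quotient.out_eq q
        rw [h4, h4, Equiv.apply_eq_iff_eq]
        exact eq_comm
      simp only [h3]
    have hgr := gram E P H ι φ hE hr T hT hc hLD.cH hEM.inj hEM.nor hφ (k : ZMod p) (l : ZMod p)
      k.ne_zero l.ne_zero
    rw [hcount] at hgr
    have h5 : (((∑ χ ∈ Irr G, ((cN χ (k : ZMod p) : ℤ) - cN χ 0) *
        ((cN χ (l : ZMod p) : ℤ) - cN χ 0)) : ℤ) : ℂ) =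
        (((e : ℤ) + if i = j then 1 else 0 : ℤ) : ℂ) := by
      push_cast
      rw [Finset.sum_congr rfl fun χ hχ => by
        rw [hdA χ (mem_Irr.1 hχ) k, hdB χ (mem_Irr.1 hχ) l], hgr]
      have h6 : (Nat.card {n : A // fixes H.subtype φ n} : ℂ) = (e : ℂ) * (p * Nat.card H) := by
        have h7 : Nat.card {n : A // fixes H.subtype φ n} = e * (p * Nat.card H) := he
        rw [h7]
        push_cast
        ring
      rw [h6]
      split_ifs
      · push_cast
        field_simp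
      · push_cast
        rw [add_zero, add_zero]
        field_simp
    exact_mod_cast h5
  · intro χ hχ
    have hχ' := mem_Irr.1 hχ
    have h2 : (aN H ι χ φ : ℂ) = ((∑ k : ZMod p, cN χ k : ℕ) : ℂ) := by
      rw [(h1 A G H ι χ φ hEM.inj hχ' hφ).1]
      push_cast
      rw [Finset.sum_congr rfl fun k _ => (hcN χ k hχ').1, ← Finset.mul_sum, Finset.sum_comm]
      have h3 : ∀ j : ZMod p, ∑ k : ZMod p, aF E H ι φ χ j * ps (-(k * j)) =
          if j = 0 then (p : ℂ) * aF E H ι φ χ 0 else 0 := by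
        intro j
        rw [← Finset.mul_sum]
        have h4 : ∑ k : ZMod p, ps (-(k * j)) = if -j = 0 then (p : ℂ) else 0 := by
          rw [← psum]
          refine Finset.sum_congr rfl fun k _ => ?_
          congr 1
          ring
        rw [h4]
        by_cases hj : j = 0
        · rw [if_pos (by rw [hj, neg_zero]), if_pos hj, hj]
          ring
        · rw [if_neg (neg_ne_zero.2 hj), if_neg hj, mul_zero]
      rw [Finset.sum_congr rfl fun j _ => h3 j, Finset.sum_ite_eq' Finset.univ (0 : ZMod p),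
        if_pos (Finset.mem_univ _), ← mul_assoc, inv_mul_cancel₀ hp0, one_mul]
      unfold aF IC.B
      congr 1
      refine Finset.sum_congr rfl fun y _ => ?_
      rw [ofAdd_zero, map_one, one_mul]
    have h3 : aN H ι χ φ = ∑ k : ZMod p, cN χ k := by exact_mod_cast h2
    have hcl : ∀ g y : G, χ (y * g * y⁻¹) = χ g := (IC.IsIrrChar.isClass (G := G) hχ')
    have hinv : ∀ q : (ZMod p)ˣ, ∀ w ∈ U, (cN χ ((q * w : (ZMod p)ˣ) : ZMod p) : ℤ) - cN χ 0 =
        (cN χ (q : ZMod p) : ℤ) - cN χ 0 := by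
      intro q w hw
      rw [hU] at hw
      obtain ⟨n, hn, rfl⟩ := hw
      have h4 : (cN χ ((q * T n : (ZMod p)ˣ) : ZMod p) : ℂ) = cN χ (q : ZMod p) := by
        rw [(hcN χ _ hχ').1, (hcN χ _ hχ').1]
        congr 1
        refine Fintype.sum_equiv (Units.mulLeft (T n)) _ _ fun j => ?_
        rw [Units.mulLeft_apply, aF_inv E H ι φ T hT χ hcl n hn, Units.val_mul, mul_assoc]
      have h5 : cN χ ((q * T n : (ZMod p)ˣ) : ZMod p) = cN χ (q : ZMod p) := by exact_mod_cast h4
      rw [h5]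
    have h6 := sum_cosets U (fun q : (ZMod p)ˣ => (cN χ (q : ZMod p) : ℤ) - cN χ 0) hinv f ev
    have h7 : (∑ k : ZMod p, cN χ k : ℤ) = p * cN χ 0 +
        ∑ q : (ZMod p)ˣ, ((cN χ (q : ZMod p) : ℤ) - cN χ 0) := by
      have h8 : ∑ k : ZMod p, ((cN χ k : ℤ) - cN χ 0) =
          ∑ q : (ZMod p)ˣ, ((cN χ (q : ZMod p) : ℤ) - cN χ 0) := by
        rw [← Finset.sum_erase Finset.univ (a := (0 : ZMod p))
          (f := fun k : ZMod p => (cN χ k : ℤ) - cN χ 0) (sub_self _)]
        symm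
        refine Finset.sum_bij (fun q _ => (q : ZMod p)) ?_ ?_ ?_ ?_
        · intro q _
          rw [Finset.mem_erase]
          exact ⟨q.ne_zero, Finset.mem_univ _⟩
        · intro q _ q' _ h
          exact Units.ext h
        · intro k hk
          rw [Finset.mem_erase] at hk
          exact ⟨Units.mk0 k hk.1, Finset.mem_univ _, rfl⟩
        · intro q _
          rfl
      rw [← h8, Finset.sum_sub_distrib, Finset.sum_const, Finset.card_univ, ZMod.card,
        nsmul_eq_mul]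
      ring
    rw [h3]
    have h9 : ((∑ k : ZMod p, cN χ k : ℕ) : ZMod p) = (((∑ k : ZMod p, (cN χ k : ℤ)) : ℤ) : ZMod p) := by
      push_cast
      rfl
    rw [h9, h7, h6, hUe]
    push_cast
    rw [CharP.cast_eq_zero, zero_mul, zero_add]

end Pool.Agent.K3h58.OP
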